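import Pool.Agent.H55.CG.Targets

/-! Row LVL of the board cog_modules: a level. -/

set_option autoImplicit false

open MeasureTheory ProbabilityTheory Filter Topology
open Pool.Agent.H95 Pool.Agent.H95.Cop Pool.Agent.H55.CG

namespace Pool.Agent.H85.CG

private theorem lvl_pt (z s0 : ℝ) (hs0 : 0 < s0) (J : ℕ) :
    z ≤ s0 + ∑ j ∈ Finset.range J, 2 * (2 ^ j * s0) * (if 2 ^ j * s0 ≤ z then (1 : ℝ) else 0) ∨
      2 ^ J * s0 < z := by
  induction J with
  | zero =>
    rcases le_or_gt z s0 with h | h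
    · left
      simpa using h
    · right
      simpa using h
  | succ J ih =>
    rw [Finset.sum_range_succ]
    have hsum : 0 ≤ ∑ j ∈ Finset.range J,
        2 * (2 ^ j * s0) * (if 2 ^ j * s0 ≤ z then (1 : ℝ) else 0) := by
      refine Finset.sum_nonneg fun j _ => ?_
      split_ifs <;> positivity
    rcases ih with h | h
    · left
      have : 0 ≤ 2 * (2 ^ J * s0) * (if 2 ^ J * s0 ≤ z then (1 : ℝ) else 0) := by
        split_ifs <;> positivity
      linarith
    · rcases le_or_gt z (2 ^ (J + 1) * s0) with h1 | h1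
      · left
        rw [if_pos h.le, mul_one]
        have : (2 : ℝ) ^ (J + 1) * s0 = 2 * (2 ^ J * s0) := by ring
        linarith
      · exact Or.inr h1

theorem pf_LVL : T_LVL := by
  classical
  intro Ω _ P _ Z hZ hZ0 hZi hZ2 E0 E2 J hE0 hE hE2 hJ hJE
  by_contra hcon
  push Not at hcon
  have hs0 : 0 < E0 / 4 := by positivity
  have hJ0 : (0 : ℝ) < J := by exact_mod_cast hJ
  have hpt : ∀ ω, Z ω ≤ (E0 / 4 + ∑ j ∈ Finset.range J, 2 * (2 ^ j * (E0 / 4)) *
      (Set.indicator {ω | 2 ^ j * (E0 / 4) ≤ Z ω} (fun _ => (1 : ℝ)) ω)) +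
      Z ω ^ 2 / (2 ^ J * (E0 / 4)) := by
    intro ω
    have h1 := lvl_pt (Z ω) (E0 / 4) hs0 J
    have h2 : ∀ j, Set.indicator {ω | 2 ^ j * (E0 / 4) ≤ Z ω} (fun _ => (1 : ℝ)) ω =
        if 2 ^ j * (E0 / 4) ≤ Z ω then (1 : ℝ) else 0 := by
      intro j
      simp [Set.indicator_apply]
    simp only [h2]
    have h3 : 0 ≤ Z ω ^ 2 / (2 ^ J * (E0 / 4)) := by positivity
    rcases h1 with h | h
    · linarith
    · have h4 : 0 ≤ ∑ j ∈ Finset.range J, 2 * (2 ^ j * (E0 / 4)) *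
          (if 2 ^ j * (E0 / 4) ≤ Z ω then (1 : ℝ) else 0) := by
        refine Finset.sum_nonneg fun j _ => ?_
        split_ifs <;> positivity
      have h5 : Z ω ≤ Z ω ^ 2 / (2 ^ J * (E0 / 4)) := by
        rw [le_div_iff₀ (by positivity)]
        nlinarith [hZ0 ω]
      linarith
  have hms : ∀ s : ℝ, MeasurableSet {ω | s ≤ Z ω} := fun s => measurableSet_le measurable_const hZ
  have hint : ∀ j ∈ Finset.range J, Integrable (fun ω => 2 * (2 ^ j * (E0 / 4)) *
      (Set.indicator {ω | 2 ^ j * (E0 / 4) ≤ Z ω} (fun _ => (1 : ℝ)) ω)) P := by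
    intro j _
    exact ((integrable_const (1 : ℝ)).indicator (hms _)).const_mul _
  have hI1 : Integrable (fun ω => E0 / 4 + ∑ j ∈ Finset.range J, 2 * (2 ^ j * (E0 / 4)) *
      (Set.indicator {ω | 2 ^ j * (E0 / 4) ≤ Z ω} (fun _ => (1 : ℝ)) ω)) P :=
    (integrable_const _).add (integrable_finsetSum _ hint)
  have hI2 : Integrable (fun ω => Z ω ^ 2 / (2 ^ J * (E0 / 4))) P := hZ2.div_const _
  have h1 := integral_mono hZi (hI1.add hI2) hpt
  simp only [Pi.add_apply] at h1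
  rw [integral_add hI1 hI2, integral_add (integrable_const _) (integrable_finsetSum _ hint),
    integral_finsetSum _ hint, integral_const, integral_div] at h1
  have h2 : ∀ j, ∫ ω, 2 * (2 ^ j * (E0 / 4)) *
      (Set.indicator {ω | 2 ^ j * (E0 / 4) ≤ Z ω} (fun _ => (1 : ℝ)) ω) ∂P =
      2 * ((2 ^ j * (E0 / 4)) * P.real {ω | 2 ^ j * (E0 / 4) ≤ Z ω}) := by
    intro j
    rw [integral_const_mul, integral_indicator (hms _)]
    simp
    ring
  have h3 : ∑ j ∈ Finset.range J, ∫ ω, 2 * (2 ^ j * (E0 / 4)) *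
      (Set.indicator {ω | 2 ^ j * (E0 / 4) ≤ Z ω} (fun _ => (1 : ℝ)) ω) ∂P <
      ∑ j ∈ Finset.range J, 2 * (E0 / (4 * J)) := by
    apply Finset.sum_lt_sum_of_nonempty (Finset.nonempty_range_iff.2 (by omega))
    intro j _
    rw [h2]
    have := hcon (2 ^ j * (E0 / 4)) (by positivity)
    linarith
  rw [Finset.sum_const, Finset.card_range, nsmul_eq_mul] at h3
  have h4 : (J : ℝ) * (2 * (E0 / (4 * J))) = E0 / 2 := by
    field_simp
    ring
  have h5 : (∫ ω, Z ω ^ 2 ∂P) / (2 ^ J * (E0 / 4)) ≤ E0 / 4 := by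
    rw [div_le_iff₀ (by positivity)]
    have h6 : 16 * ∫ ω, Z ω ^ 2 ∂P ≤ 2 ^ J * E0 ^ 2 := by linarith
    nlinarith
  have h6 : P.real Set.univ • (E0 / 4) = E0 / 4 := by simp
  rw [h6] at h1
  linarith

end Pool.Agent.H85.CG
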