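import Pool.Agent.H55.CG.Targets

/-! Row YLO of the board cog_modules: lower bound of the fractional moment. -/

set_option autoImplicit false

open MeasureTheory ProbabilityTheory Filter Topology
open Pool.Agent.H95 Pool.Agent.H95.Cop Pool.Agent.H55.CG

namespace Pool.Agent.H85.CG

open Classical in
theorem pf_YLO (hYPW : T_YPW) (hDCW : T_DCW) (hSCL : T_SCL) (hMSL : T_MSL) (hGGS : T_GGS) :
    T_YLO := by
  intro K ν _ hν α a b b0 q R ℓ m P hα ha ha1 hb hb0 hq hℓ hP hlow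
  have hγ : (0 : ℝ) < 1 / (1 + α) := by positivity
  have hFB0 : ∀ L (x : ℕ → ℝ), 0 ≤ FB K ℓ L x := (hGGS K ℓ hℓ).2.2.1
  have hpow : ∀ x : ℕ → ℝ, YY K α a q ℓ P x ^ (1 / (1 + α)) =
      ∑ L ∈ P, dc α a L ^ (1 / (1 + α)) *
        (if GB q ℓ L x then FB K ℓ L x ^ (1 / (1 + α)) else 0) := by
    intro x
    rw [(hYPW K α a q R ℓ P m hq ha.le hℓ hP x _ hγ).2]
    refine Finset.sum_congr rfl fun L _ => ?_
    split_ifs with h
    · exact Real.mul_rpow (hDCW α a b hα ha ha1 hb L).1.le (hFB0 L x)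
    · rw [mul_zero]
  have hint : ∀ L ∈ P, Integrable (fun x : ℕ → ℝ => dc α a L ^ (1 / (1 + α)) *
      (if GB q ℓ L x then FB K ℓ L x ^ (1 / (1 + α)) else 0)) (iid ν) := by
    intro L hL
    refine Integrable.const_mul ?_ _
    have h1 := (hSCL K ν hν (1 / (1 + α)) q R ℓ hγ hq hℓ L (hP L hL).1).1
    have h2 := (hMSL K ℓ q 0 L).2.2.2.2.2.1
    have h3 := h1.indicator h2
    refine h3.congr (Filter.Eventually.of_forall fun x => ?_)
    simp only [Set.indicator_apply, Set.mem_setOf_eq]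
  have hfun : (fun x => YY K α a q ℓ P x ^ (1 / (1 + α))) = fun x : ℕ → ℝ =>
      ∑ L ∈ P, dc α a L ^ (1 / (1 + α)) *
        (if GB q ℓ L x then FB K ℓ L x ^ (1 / (1 + α)) else 0) := funext hpow
  constructor
  · rw [hfun]
    exact integrable_finsetSum _ hint
  · rw [hfun, integral_finsetSum _ hint, Finset.mul_sum]
    refine Finset.sum_le_sum fun L hL => ?_
    rw [integral_const_mul]
    obtain ⟨h1, -, h3⟩ := hDCW α a b hα ha ha1 hb L
    calc b0 * wL (a * b) L ≤ b0 * (dc α a L ^ (1 / (1 + α)) * b ^ (2 * L.length)) :=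
          mul_le_mul_of_nonneg_left h3 hb0
      _ = dc α a L ^ (1 / (1 + α)) * (b0 * b ^ (2 * L.length)) := by ring
      _ ≤ _ := mul_le_mul_of_nonneg_left (hlow L (hP L hL).1) (Real.rpow_nonneg h1.le _)

end Pool.Agent.H85.CG
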